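import Pool.Agent.U44.TD.Fin

/-!
# The complete c.e. degree is the degree of topological categoricity of the discrete space `ℕ`

The definitions `CMS` (computable metric spaces with their completions), `Red` (Turing
reducibility), `Cat` (`a`-categoricity) and `CatBoth` (the variant in which the inverse
homeomorphism is also `a`-computable) are those of the starting files
(`Pool.Agent.Helper583.TTStmt`, `Pool.Agent.Helper583.TCStmt`, `Pool.Agent.H109R3.TC.Stmt`).

Let `H` be the halting problem.  The degree of `H` is the degree of topological categoricity of the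
discrete space `ℕ`.  More generally, if `X` is an infinite computable Polish space whose isolated
points are dense (for instance an infinite countable computable Polish space) and `X` is
`a`-categorical, then `H` is computable from `a`.  So the only c.e. degrees which are degrees of
topological categoricity of countable computable Polish spaces are the degrees of the computable
sets and of `H`.
-/

set_option autoImplicit false

namespace Pool.Agent.Results.MP_55a818_lc.CompleteDegree

open Pool.Agent.Helper583.TT (CMS)
open Pool.Agent.Helper583.TC (Red)
open Pool.Agent.H109R3.TC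

open Classical in
/-- the characteristic function of a set -/
noncomputable def chi (A : ℕ → Prop) (n : ℕ) : ℕ := if A n then 1 else 0

/-- The halting problem: the program with number `e` halts on the input `e`. -/
def Halts (e : ℕ) : Prop := ((Denumerable.ofNat Nat.Partrec.Code e).eval e).Dom

/-- `X` is a computable Polish space. -/
def ComputablePolish (X : Type) [TopologicalSpace X] : Prop := ∃ M : CMS, Nonempty (M.Y ≃ₜ X)

/-- The Turing degree of `a` is the degree of topological categoricity of `X`. -/
def IsDegree (X : Type) [TopologicalSpace X] (a : ℕ → ℕ) : Prop :=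
  Cat X a ∧ ∀ b : ℕ → ℕ, Cat X b → Red a b

/-- The same with the variant of categoricity in which the homeomorphism and its inverse are both
required to be computable relative to the oracle. -/
def IsDegreeBoth (X : Type) [TopologicalSpace X] (a : ℕ → ℕ) : Prop :=
  CatBoth X a ∧ ∀ b : ℕ → ℕ, CatBoth X b → Red a b

theorem chi_halts : chi Halts = Pool.Agent.U44.TD.chH := by
  funext e
  unfold chi Pool.Agent.U44.TD.chH
  by_cases h : Halts e
  · rw [if_pos h, if_pos ((Pool.Agent.U44.TD.exists_T_iff e).2 h)]
  · rw [if_neg h, if_neg fun h' => h ((Pool.Agent.U44.TD.exists_T_iff e).1 h')]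

theorem chi_eq (A : ℕ → Prop) [DecidablePred A] : chi A = fun n => if A n then 1 else 0 := by
  funext n
  unfold chi
  by_cases h : A n
  · rw [if_pos h, if_pos h]
  · rw [if_neg h, if_neg h]

theorem polish_nat : ComputablePolish ℕ := by
  refine ⟨{ Y := ℕ, c := id, dense := Function.surjective_id.denseRange, comp := ?_ },
    ⟨Homeomorph.refl ℕ⟩⟩
  refine ⟨fun p => ((p.1 - p.2.1) + (p.2.1 - p.1)) * 2 ^ p.2.2, ?_, fun i j k => ?_⟩
  · have h1 : Computable fun p : ℕ × ℕ × ℕ => p.1 := Computable.fst
    have h2 : Computable fun p : ℕ × ℕ × ℕ => p.2.1 := Computable.fst.comp Computable.snd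
    have h3 : Computable fun p : ℕ × ℕ × ℕ => p.2.2 := Computable.snd.comp Computable.snd
    exact Pool.Agent.Helper583.TT.c_mul (Pool.Agent.Helper583.TT.c_add
      (Pool.Agent.Helper583.TT.c_sub h1 h2) (Pool.Agent.Helper583.TT.c_sub h2 h1))
      (Pool.Agent.Helper583.TT.c_pow2 h3)
  · have h1 : dist (id i) (id j) = (((i - j) + (j - i) : ℕ) : ℝ) := by
      rw [id, id, Nat.dist_eq]
      rcases le_total i j with h | h
      · rw [Nat.sub_eq_zero_of_le h, zero_add, Nat.cast_sub h, abs_sub_comm, abs_of_nonneg]
        exact sub_nonneg.2 (by exact_mod_cast h)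
      · rw [Nat.sub_eq_zero_of_le h, add_zero, Nat.cast_sub h, abs_of_nonneg]
        exact sub_nonneg.2 (by exact_mod_cast h)
    rw [h1]
    have h2 : (0 : ℝ) < 2 ^ k := by positivity
    push_cast
    rw [mul_div_assoc, div_self h2.ne', mul_one, sub_self, abs_zero]
    positivity

/-- 1. The halting problem is c.e., not computable, and every c.e. set is computable from it.
2. The discrete space `ℕ` is a computable Polish space, and the degree of the halting problem is its
degree of topological categoricity, for both variants of the definition.
3. If `X` is an infinite computable Polish space whose isolated points are dense and `X` is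
`a`-categorical, then the halting problem is computable from `a`.
4. If `X` is a countable computable Polish space and the degree of a set `A` is the degree of
topological categoricity of `X` (for one of the variants), then `A` is computable or the halting
problem is computable from `A`.  (So if `A` is c.e., then it is computable or complete.) -/
theorem result :
    (REPred Halts ∧ ¬ ComputablePred Halts ∧
      ∀ A : ℕ → Prop, REPred A → Red (chi A) (chi Halts)) ∧
    (ComputablePolish ℕ ∧ IsDegree ℕ (chi Halts) ∧ IsDegreeBoth ℕ (chi Halts)) ∧
    (∀ (X : Type) [TopologicalSpace X] [Infinite X], ComputablePolish X →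
      Dense {x : X | IsOpen ({x} : Set X)} → ∀ a : ℕ → ℕ, Cat X a → Red (chi Halts) a) ∧
    (∀ (X : Type) [TopologicalSpace X] [Countable X], ComputablePolish X →
      ∀ A : ℕ → Prop, IsDegree X (chi A) ∨ IsDegreeBoth X (chi A) →
        ComputablePred A ∨ Red (chi Halts) (chi A)) := by
  classical
  have hlow : ∀ (X : Type) [TopologicalSpace X] [Infinite X], ComputablePolish X →
      Dense {x : X | IsOpen ({x} : Set X)} → ∀ a : ℕ → ℕ, Cat X a → Red (chi Halts) a := by
    intro X _ _ hX hd a ha
    rw [chi_halts]
    exact Pool.Agent.U44.TD.red_of_cat X hX hd ha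
  have hden : Dense {x : ℕ | IsOpen ({x} : Set ℕ)} := by
    intro x
    exact subset_closure (show IsOpen ({x} : Set ℕ) from isOpen_discrete _)
  have hbase : (fun e : ℕ => ∃ s, Pool.Agent.U44.TD.T e s = true) = Halts := by
    funext e
    exact propext (Pool.Agent.U44.TD.exists_T_iff e)
  refine ⟨⟨?_, ?_, ?_⟩, ⟨polish_nat, ⟨?_, ?_⟩, ?_, ?_⟩, hlow, ?_⟩
  · rw [← hbase]
    exact Pool.Agent.U44.TD.halting_re
  · rw [← hbase]
    exact Pool.Agent.U44.TD.not_computable
  · intro A hA
    rw [chi_halts, chi_eq]
    exact Pool.Agent.U44.TD.red_chH_of_re hA
  · rw [chi_halts]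
    exact Pool.Agent.U44.TD.catBoth_nat.cat
  · intro b hb
    exact hlow ℕ polish_nat hden b hb
  · rw [chi_halts]
    exact Pool.Agent.U44.TD.catBoth_nat
  · intro b hb
    exact hlow ℕ polish_nat hden b hb.cat
  · intro X _ _ hX A hA
    rcases finite_or_infinite X with hfin | hinf
    · left
      apply Pool.Agent.U44.TD.comp_of_red_zero
      rw [← chi_eq]
      rcases hA with hA | hA
      · exact hA.2 _ (Pool.Agent.H109R3.LA.catBoth_of_finite X _).cat
      · exact hA.2 _ (Pool.Agent.H109R3.LA.catBoth_of_finite X _)
    · right
      have hd := Pool.Agent.U44.TD.dense_of_countable X hX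
      rcases hA with hA | hA
      · exact hlow X hX hd _ hA.1
      · exact hlow X hX hd _ hA.1.cat

end Pool.Agent.Results.MP_55a818_lc.CompleteDegree
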